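import Pool.Agent.Helper89.ME.KerDefs

/-!
# Main theorem: definitions (section 4 of ME_rigid.md)
-/

set_option autoImplicit false

namespace ME

open Encodable Set

/-- the labels along a path of the labelled tree `t` -/
def rho (t : List Bool → Bool) (y : ℕ → Bool) : ℕ → Bool := fun n => t (pre y n)

/-- index of the points: `(j, none)` base point of system `j`, `(j, some m)` its `m`-th satellite -/
abbrev Idx : Type := Bool × Option ℕ

/-- the points -/
def pt (M : ℕ) (c : Bool → ℕ → Bool) (z : Bool × ℕ → ℕ → Bool) : Idx → (ℕ → Bool)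
  | (j, none) => c j
  | (j, some m) => sat (c j) (M + m) (z (j, m))

/-- join of the label paths of the points with index in `F` -/
def GF (t : List Bool → Bool) (Y : Idx → ℕ → Bool) (F : Set Idx) : Set ((Idx × ℕ) × Bool) :=
  {p | p.1.1 ∈ F ∧ rho t (Y p.1.1) p.1.2 = p.2}

/-- `t` is unpredictable above `u` relative to the oracle `A` -/
def PA (A : Set ℕ) (t : List Bool → Bool) (u : List Bool) : Prop :=
  ∀ Θ : Set ℕ → Set (ℕ × Bool), IsOp Θ → (∀ n, ∃ v, (n, v) ∈ Θ A) →
    ∃ n v, (n, v) ∈ Θ A ∧ u.length ≤ n ∧ ∀ w : List Bool, u <+: w → w.length = n → t w = !v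

/-- graph of a function on the natural numbers -/
def gn (m : ℕ → ℕ) : Set (ℕ × ℕ) := {p | m p.1 = p.2}

/-- number of `i` with `ν i < n`, for strictly increasing `ν` -/
noncomputable def kap (ν : ℕ → ℕ) (n : ℕ) : ℕ := sInf {i | n ≤ ν i}

/-- its parity -/
noncomputable def par (ν : ℕ → ℕ) (n : ℕ) : Bool := decide (kap ν n % 2 = 1)

end ME
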