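import Pool.Agent.Helper89.ME.LatDefs

/-!
# Category: definitions
-/

set_option autoImplicit false

namespace ME

open Encodable Set

/-- the first `n` bits of `y` -/
def pre (y : ℕ → Bool) (n : ℕ) : List Bool := (List.range n).map y

/-- the basic open set of a string: `y` extends `s` -/
def cyl (s : List Bool) : Set (ℕ → Bool) := {y | pre y s.length = s}

/-- `D` is everywhere nonmeagre in `[s]` -/
def ENM (D : Set (ℕ → Bool)) (s : List Bool) : Prop :=
  ∀ t : List Bool, s <+: t → ¬ IsMeagre (D ∩ cyl t)

/-- a real as a set of numbers -/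
def rs (h : ℕ → Bool) : Set ℕ := cd (gr h)

/-- total sets -/
def Tot (X : Set ℕ) : Prop := ∃ h : ℕ → Bool, EE X (rs h)

/-- length of the longest common prefix -/
noncomputable def fd (x y : ℕ → Bool) : ℕ := PiNat.firstDiff (E := fun _ => Bool) x y

end ME
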