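import Pool.Agent.Helper89.ME.Main2aAll
import Pool.Agent.Helper89.ME.BaseAll

/-!
# The end of the main theorem (step 5)
-/

set_option autoImplicit false

namespace ME

open Encodable Set Filter Topology

/-- composition with a parametrised operator -/
theorem EP.opp89 {α β γ δ : Type} [Primcodable α] [Primcodable β] [Primcodable γ] [Primcodable δ]
    {P : Set β → γ → Prop} (hP : EP P) {Φ : δ → Set α → Set β}
    (hΦ : EP (fun X (p : δ × β) => p.2 ∈ Φ p.1 X)) :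
    EP (fun X (q : δ × γ) => P (Φ q.1 X) q.2) := by
  obtain ⟨W, hW, hP⟩ := hP
  have h1 : EP (fun (X : Set α) (y : (δ × γ) × List β) =>
      W (y.2, y.1.2) ∧ ∀ b ∈ y.2, b ∈ Φ y.1.1 X) := by
    refine EP.and (EP.re (hW.subst (Primrec.snd.pair (Primrec.snd.comp Primrec.fst)))) ?_
    have h2 : EP (fun (X : Set α) (z : ((δ × γ) × List β) × β) => z.2 ∈ Φ z.1.1.1 X) :=
      EP.subst hΦ ((Primrec.fst.comp (Primrec.fst.comp Primrec.fst)).pair Primrec.snd)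
    exact EP.ball (P := fun (X : Set α) (z : ((δ × γ) × List β) × β) => z.2 ∈ Φ z.1.1.1 X) h2
      (g := fun y => y.2) Primrec.snd
  refine h1.ex.of_iff ?_
  intro X c
  rw [hP]

theorem ER_uniform {Z A : Set ℕ} {C : ℕ → Set ℕ} {m : ℕ → ℕ} {g : ℕ → Bool}
    {Θ : Set (ℕ ⊕ ℕ) → Set Bool} (hΘ : IsOp Θ) (hA : ER A Z)
    (hC : ER {q : ℕ × ℕ | q.2 ∈ C q.1} Z) (hm : ER (gn m) Z)
    (h : ∀ k, Θ (sj A (C k)) = {g k}) : ER (rs (fun i => g (m i))) Z := by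
  obtain ⟨Φ, hΦ, rfl⟩ := hA
  obtain ⟨Ψ, hΨ, hΨZ⟩ := hC
  obtain ⟨Ξ, hΞ, hΞZ⟩ := hm
  refine ER.cd_left ?_
  have h1 : EP (fun (X : Set ℕ) (p : ℕ × (ℕ ⊕ ℕ)) => p.2 ∈ sj (Φ X) {n | (p.1, n) ∈ Ψ X}) := by
    have h2 : EP (fun (X : Set ℕ) (y : (ℕ × (ℕ ⊕ ℕ)) × ℕ) => y.1.2 = Sum.inl y.2 ∧ y.2 ∈ Φ X) :=
      EP.and (EP.re (RE.eq (Primrec.snd.comp Primrec.fst) (Primrec.sumInl.comp Primrec.snd)))
        (EP.subst hΦ Primrec.snd)
    have h3 : EP (fun (X : Set ℕ) (y : (ℕ × (ℕ ⊕ ℕ)) × ℕ) =>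
        y.1.2 = Sum.inr y.2 ∧ (y.1.1, y.2) ∈ Ψ X) :=
      EP.and (EP.re (RE.eq (Primrec.snd.comp Primrec.fst) (Primrec.sumInr.comp Primrec.snd)))
        (EP.subst hΨ ((Primrec.fst.comp Primrec.fst).pair Primrec.snd))
    refine (h2.ex.or h3.ex).of_iff ?_
    rintro X ⟨k, s⟩
    cases s with
    | inl a => simp
    | inr b => simp
  have h4 : EP (fun (X : Set ℕ) (q : ℕ × Bool) =>
      q.2 ∈ Θ (sj (Φ X) {n | (q.1, n) ∈ Ψ X})) :=
    EP.opp89 (P := fun (Y : Set (ℕ ⊕ ℕ)) (v : Bool) => v ∈ Θ Y) hΘ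
      (Φ := fun k X => sj (Φ X) {n | (k, n) ∈ Ψ X}) h1
  have h5 : EP (fun (X : Set ℕ) (y : (ℕ × Bool) × ℕ) => (y.1.1, y.2) ∈ Ξ X ∧
      y.1.2 ∈ Θ (sj (Φ X) {n | (y.2, n) ∈ Ψ X})) :=
    EP.and (EP.subst hΞ ((Primrec.fst.comp Primrec.fst).pair Primrec.snd))
      (EP.subst h4 (Primrec.snd.pair (Primrec.snd.comp Primrec.fst)))
  refine ⟨fun X => {q : ℕ × Bool | ∃ k, (q.1, k) ∈ Ξ X ∧
      q.2 ∈ Θ (sj (Φ X) {n | (k, n) ∈ Ψ X})}, h5.ex.of_iff (fun X q => Iff.rfl), ?_⟩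
  ext ⟨i, v⟩
  have hk : ∀ k, Θ (sj (Φ Z) {n | (k, n) ∈ Ψ Z}) = {g k} := by
    intro k
    rw [← h k, hΨZ]
    rfl
  simp only [mem_setOf_eq, hk, hΞZ, gn, mem_singleton_iff, gr]
  constructor
  · rintro ⟨k, rfl, rfl⟩
    rfl
  · rintro rfl
    exact ⟨_, rfl, rfl⟩

namespace Pack

variable {a : Aut} {e : Set ℕ} {f : ℕ → Bool} (P : Pack a e f)

theorem columns_le (j : Bool) : ER {q : ℕ × ℕ | q.2 ∈ P.ro (j, some q.1)} P.G := by
  have h : IsOp (fun X : Set ((Idx × ℕ) × Bool) =>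
      {q : ℕ × ℕ | ∃ p : ℕ × Bool, q.2 = encode p ∧ (((j, some q.1), p.1), p.2) ∈ X}) := by
    have h1 : EP (fun (X : Set ((Idx × ℕ) × Bool)) (y : (ℕ × ℕ) × (ℕ × Bool)) =>
        y.1.2 = encode y.2 ∧ (((j, some y.1.1), y.2.1), y.2.2) ∈ X) := by
      refine EP.and (EP.re (RE.eq (Primrec.snd.comp Primrec.fst)
        (Primrec.encode.comp Primrec.snd))) (EP.mem ?_)
      exact ((((Primrec.const j).pair (Primrec.option_some.comp
        (Primrec.fst.comp Primrec.fst))).pair (Primrec.fst.comp Primrec.snd)).pair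
        (Primrec.snd.comp Primrec.snd))
    exact h1.ex.of_iff (fun X q => Iff.rfl)
  refine ER.trans ⟨_, h, ?_⟩ (ER.of_cd (GF P.t P.Y univ))
  ext ⟨k, n⟩
  simp only [GF, mem_univ, true_and, mem_setOf_eq, ro, rs]
  constructor
  · rintro ⟨p, rfl, hp⟩
    exact encode_mem_cd.2 hp
  · rintro ⟨p, hp, rfl⟩
    exact ⟨p, rfl, hp⟩

include P in
theorem final : False := by
  obtain ⟨m, hmono, hm⟩ := selection (P.s true) (P.s false) (P.s_tendsto true) (P.s_tendsto false)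
  set ν : ℕ → ℕ := fun i => P.s true (m i) with hν
  have hmG : ER (gn m) P.G := hm.trans P.o_le_G
  have h4 : ER (gr (par ν)) P.x := P.step4 m hmG hmono
  have hk : ER (gn (kap ν)) P.x := (ER_kap_par hmono).trans h4
  set φ : ℕ → Bool := fun n => f (kap ν n) with hφ
  have hφ1 : ER (rs φ) (jn (rs f) P.x) :=
    ER_comp_gr (ER_jn_left _ _) (hk.trans (ER_jn_right _ _))
  have hφ2 : ER (a.pi (rs φ)) (jn (a.pi (rs f)) P.G) := by
    refine ((a.pi_mono).2 hφ1).trans ((a.pi_jn _ _).1.trans ?_)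
    exact ER_jn (ER_jn_left _ _) (P.pi_x.1.trans (ER_jn_right _ _))
  have hφ3 : ∀ l : Idx, l.2 ≠ none → ER (rs φ) (jn P.b (P.Gm l)) := by
    intro l hl
    have h1 := P.s_low true l hl
    have h0 := P.s_low false l hl
    have h2 : ER (gn m) (jn e (P.Gm l)) := hm.trans (ER_lt_table h1 h0)
    have h3 : ER (gn ν) (jn e (P.Gm l)) := ER_comp h1 h2
    have h5 : ER (gn (kap ν)) (jn e (P.Gm l)) := (ER_kap_nu hmono).trans h3
    refine ER_comp_gr (P.f_le_b.trans (ER_jn_left _ _)) (h5.trans ?_)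
    exact ER_jn (P.e_le_b.trans (ER_jn_left _ _)) (ER_jn_right _ _)
  obtain ⟨Θ, hΘ, hΘm⟩ := P.read φ hφ2 hφ3
  apply P.hI0
  change ER (rs f) (jn (a.pi (rs f)) P.G)
  have hA : ER (jn (a.pi (rs φ)) (P.ro (true, none))) (jn (a.pi (rs f)) P.G) :=
    ER_jn hφ2 ((P.ro_le_G _).trans (ER_jn_right _ _))
  have hC : ER {q : ℕ × ℕ | q.2 ∈ P.ro (true, some q.1)} (jn (a.pi (rs f)) P.G) :=
    (P.columns_le true).trans (ER_jn_right _ _)
  have := ER_uniform (C := fun k => P.ro (true, some k)) (g := fun k => φ (P.s true k)) hΘ hA hC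
    (hmG.trans (ER_jn_right _ _)) hΘm
  have h6 : (fun i => φ (P.s true (m i))) = f := by
    funext i
    simp only [hφ]
    congr 1
    exact kap_nu hmono i
  rw [h6] at this
  exact this

end Pack

/-- **Main theorem**: `f ≤ π f` for every total `f` -/
theorem main_le (a : Aut) (f : ℕ → Bool) : ER (rs f) (a.pi (rs f)) := by
  by_contra hf
  obtain ⟨e, he⟩ := base a
  obtain ⟨P⟩ := exists_pack a e he (total_image a.symm) f hf
  exact P.final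

theorem pi_total (a : Aut) (f : ℕ → Bool) : EE (a.pi (rs f)) (rs f) := by
  refine ⟨?_, main_le a f⟩
  exact a.pi_le_iff.2 (main_le a.symm f)

theorem pi_le (a : Aut) (X : Set ℕ) : ER (a.pi X) X := by
  refine selman fun k hk => ?_
  exact ((a.pi_mono).2 hk).trans (pi_total a k).1

theorem pi_eq (a : Aut) (X : Set ℕ) : EE (a.pi X) X := by
  refine ⟨pi_le a X, ?_⟩
  exact a.le_pi_iff.2 (pi_le a.symm X)

end ME
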