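import Pool.Agent.Helper89.ME.MainDefs

/-!
# The space of (tree, base points, satellites)
-/

set_option autoImplicit false

namespace ME

/-- the space of (tree, base points, satellites) -/
abbrev Gam1 : Type := (List Bool → Bool) × ((ℕ → Bool) × ((ℕ → Bool) × (Bool × ℕ → ℕ → Bool)))

/-- the points given by an element of `Gam1` -/
def pts (M : ℕ) (g : Gam1) : Idx → ℕ → Bool := pt M (fun j => cond j g.2.1 g.2.2.1) g.2.2.2

end ME
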