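import Pool.Agent.Helper89.ME.CatDefs

/-!
# K-pairs: definition
-/

set_option autoImplicit false

namespace ME

/-- Kalimullin pairs -/
def KPair (A B : Set ℕ) : Prop := ∃ W : ℕ × ℕ → Prop, RE W ∧ (∀ a ∈ A, ∀ b ∈ B, W (a, b)) ∧
  ∀ a b, W (a, b) → a ∈ A ∨ b ∈ B

end ME
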