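import Pool.Agent.Helper89.ME.CatDefs

/-!
# Kernel theorem: definitions (section 5 of ME_rigid.md, simplified tokens)

A token `b` has a type `ty (τ b)`, either `none` or `some (s, a)`.
For a real `y`, `k0 τ y` contains `(b, (n, a))` iff the type of `b` is `((y|n)^flip, a)`, and
`k1 τ A y` contains `b` iff the type of `b` is `(y|(n+1), a)` with `a ∈ plus (A n)`.
-/

set_option autoImplicit false

namespace ME

open Encodable Set

/-- the satellite of `a` branching off at `k` -/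
def sat (a : ℕ → Bool) (k : ℕ) (z : ℕ → Bool) : ℕ → Bool :=
  fun n => if n < k then a n else if n = k then !(a k) else z n

/-- `{0} ∪ (X + 1)` -/
def plus (X : Set ℕ) : Set ℕ := {a | a = 0 ∨ ∃ x ∈ X, a = x + 1}

/-- decoding of token types -/
def ty : ℕ → Option (List Bool × ℕ)
  | 0 => none
  | k + 1 => decode k

def k0 (τ : ℕ → ℕ) (y : ℕ → Bool) : Set (ℕ × (ℕ × ℕ)) :=
  {p | ty (τ p.1) = some (pre y p.2.1 ++ [!(y p.2.1)], p.2.2)}

def k1 (τ : ℕ → ℕ) (A : ℕ → Set ℕ) (y : ℕ → Bool) : Set ℕ :=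
  {b | ∃ n a, ty (τ b) = some (pre y (n + 1), a) ∧ a ∈ plus (A n)}

/-- the space of (types, base point, satellites) -/
abbrev Gam : Type := (ℕ → ℕ) × ((ℕ → Bool) × (ℕ → ℕ → Bool))

/-- the facts: `(b, inl (n, a))` if `b` has type `((y₀|n)^flip, a)`; `(b, inr m)` if `b` is not of
this kind (for no `n`, `a`) and `b ∈ k1` of the `m`-th satellite -/
def facts (A : ℕ → Set ℕ) (g : Gam) : Set (ℕ × ((ℕ × ℕ) ⊕ ℕ)) :=
  {p | (∃ n a, p.2 = Sum.inl (n, a) ∧ ty (g.1 p.1) = some (pre g.2.1 n ++ [!(g.2.1 n)], a)) ∨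
    (∃ m, p.2 = Sum.inr m ∧ (∀ n a, ty (g.1 p.1) ≠ some (pre g.2.1 n ++ [!(g.2.1 n)], a)) ∧
      p.1 ∈ k1 g.1 A (sat g.2.1 m (g.2.2 m)))}

/-- the discrete problem `{n^A_n}` -/
def DP (A : ℕ → Set ℕ) : Set (Set ℕ) := range fun n => tg n (A n)

end ME
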