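import Pool.Agent.Helper89.ME.Ops

/-!
# The Dyment lattice: problems, reducibility, automorphisms (definitions)
-/

set_option autoImplicit false

namespace ME

open Encodable Set

/-- a problem: a set of sets of numbers. `PR A B` is `A ≤ B` -/
def PR (A B : Set (Set ℕ)) : Prop := ∃ Φ : Set ℕ → Set ℕ, IsOp Φ ∧ ∀ X ∈ B, Φ X ∈ A

/-- equivalence of problems -/
def PE (A B : Set (Set ℕ)) : Prop := PR A B ∧ PR B A

/-- equivalence of sets -/
def EE {α β : Type} [Primcodable α] [Primcodable β] (X : Set α) (Y : Set β) : Prop :=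
  ER X Y ∧ ER Y X

/-- join of two sets of numbers, as a set of numbers -/
def jn (X Y : Set ℕ) : Set ℕ := cd (sj X Y)

/-- join of two problems -/
def PJ (A B : Set (Set ℕ)) : Set (Set ℕ) := {Z | ∃ X ∈ A, ∃ Y ∈ B, Z = jn X Y}

/-- tagging a set by a number: `{n}` × (`{0}` ∪ (X + 1)), coded -/
def tg (n : ℕ) (X : Set ℕ) : Set ℕ := cd (insert (n, 0) {p : ℕ × ℕ | ∃ a ∈ X, p = (n, a + 1)})

/-- declared meet of two problems -/
def PM (A B : Set (Set ℕ)) : Set (Set ℕ) := {Z | (∃ X ∈ A, Z = tg 0 X) ∨ (∃ Y ∈ B, Z = tg 1 Y)}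

/-- Muchnik class (upward closure) -/
def MU (C : Set (Set ℕ)) : Set (Set ℕ) := {Y | ∃ X ∈ C, ER X Y}

/-- an automorphism of the Dyment lattice, with its inverse -/
structure Aut where
  F : Set (Set ℕ) → Set (Set ℕ)
  G : Set (Set ℕ) → Set (Set ℕ)
  F_mono : ∀ A B, PR A B → PR (F A) (F B)
  G_mono : ∀ A B, PR A B → PR (G A) (G B)
  FG : ∀ A, PE (F (G A)) A
  GF : ∀ A, PE (G (F A)) A

/-- the inverse automorphism -/
def Aut.symm (a : Aut) : Aut := ⟨a.G, a.F, a.G_mono, a.F_mono, a.GF, a.FG⟩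

/-- the graph of a function into `Bool` -/
def gr {ι : Type} (h : ι → Bool) : Set (ι × Bool) := {p | h p.1 = p.2}

end ME
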