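import Pool.Agent.Helper89.ME.MainDefs
import Pool.Agent.Helper89.ME.LatAll

/-!
# Main theorem: the data of step 1
-/

set_option autoImplicit false

namespace ME

open Encodable Set

/-- base property -/
def IsBase (a : Aut) (e : Set ℕ) : Prop :=
  ∀ X : Set ℕ, ER (a.pi X) (jn X e) ∧ ER X (jn (a.pi X) e)

/-- the data of step 1 -/
structure Pack (a : Aut) (e : Set ℕ) (f : ℕ → Bool) where
  t : List Bool → Bool
  M : ℕ
  c : Bool → ℕ → Bool
  z : Bool × ℕ → ℕ → Bool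
  r : (ℕ → Bool) → (ℕ → Bool)
  J : Bool → Set (ℕ → Bool)
  Ψ : Set (ℕ ⊕ ℕ) → Set ℕ
  Λ : Bool → Set ℕ → Set ℕ
  he : IsBase a e
  hΨ : IsOp Ψ
  hΛ : ∀ j, IsOp (Λ j)
  /-- `r y` is a real in `π⁻¹(ρ_y)` -/
  r_spec : ∀ y, EE (a.symm.pi (rs (rho t y))) (rs (r y))
  base_not_mem : ∀ j, c j ∉ J j
  pt_mem : ∀ j m, pt M c z (j, some m) ∈ J j
  pt_disj : ∀ j l, l.1 ≠ j → pt M c z l ∉ J j
  pt_inj : Function.Injective (pt M c z)
  Ψ_spec : ∀ l, Ψ (sj e (rs (rho t (pt M c z l)))) = rs (r (pt M c z l))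
  Λ_spec : ∀ j m, Λ j (rs (rho t (pt M c z (j, some m)))) ∈
    a.F (range fun y : J j => rs (r y.1))
  hI0 : ¬ ER (rs f) (jn (a.pi (rs f)) (cd (GF t (pt M c z) univ)))
  hP : ∀ u, (∀ l, pt M c z l ∉ cyl u) →
    PA (jn (jn e (rs f)) (cd (GF t (pt M c z) univ))) t u
  hPl : ∀ l u, (∀ l', l' ≠ l → pt M c z l' ∉ cyl u) →
    PA (jn (jn e (rs f)) (cd (GF t (pt M c z) {l}ᶜ))) t u
  hPf : ∀ m u, c true ∉ cyl u → pt M c z (true, some m) ∉ cyl u →
    PA (jn (jn e (rs f)) (cd (GF t (pt M c z) {(true, none), (true, some m)}))) t u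

namespace Pack

variable {a : Aut} {e : Set ℕ} {f : ℕ → Bool} (P : Pack a e f)

/-- the points -/
def Y : Idx → ℕ → Bool := pt P.M P.c P.z

/-- the label paths (image side) -/
def ro (l : Idx) : Set ℕ := rs (rho P.t (P.Y l))

/-- `G` -/
def G : Set ℕ := cd (GF P.t P.Y univ)

/-- `G` without the column `l` -/
def Gm (l : Idx) : Set ℕ := cd (GF P.t P.Y {l}ᶜ)

/-- `x = π⁻¹ G` -/
noncomputable def x : Set ℕ := a.symm.pi P.G

/-- the base -/
def b (_ : Pack a e f) : Set ℕ := jn e (rs f)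

/-- original side integers named by the satellites -/
noncomputable def s (j : Bool) (m : ℕ) : ℕ := fd (P.r (P.Y (j, none))) (P.r (P.Y (j, some m)))

end Pack

end ME
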