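import Mathlib

/-!
# Σ₁ predicates: a convenient closure calculus
-/

set_option autoImplicit false

namespace ME

open Encodable

/-- semi-decidable (Σ₁) predicates -/
def RE {α : Type} [Primcodable α] (p : α → Prop) : Prop :=
  ∃ q : α → ℕ → Prop, PrimrecRel q ∧ ∀ a, p a ↔ ∃ m, q a m

section

variable {α β γ : Type} [Primcodable α] [Primcodable β] [Primcodable γ]

theorem primrecRel_comp {δ : Type} [Primcodable δ] {q : α → β → Prop} (hq : PrimrecRel q)
    {f : δ → α} {g : δ → β} (hf : Primrec f) (hg : Primrec g) :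
    PrimrecPred (fun c => q (f c) (g c)) :=
  PrimrecPred.comp (p := fun x : α × β => q x.1 x.2) hq (f := fun c => (f c, g c)) (hf.pair hg)

theorem RE.of_iff {p q : α → Prop} (hp : RE p) (h : ∀ a, q a ↔ p a) : RE q := by
  obtain ⟨r, hr, hpr⟩ := hp
  exact ⟨r, hr, fun a => (h a).trans (hpr a)⟩

theorem RE.prim {p : α → Prop} (hp : PrimrecPred p) : RE p := by
  refine ⟨fun a _ => p a, ?_, fun a => by simp⟩
  exact PrimrecPred.comp (p := p) hp (f := fun x : α × ℕ => x.1) Primrec.fst

theorem RE.subst {p : β → Prop} (hp : RE p) {f : α → β} (hf : Primrec f) :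
    RE (fun a => p (f a)) := by
  obtain ⟨q, hq, hpq⟩ := hp
  exact ⟨fun a m => q (f a) m, primrecRel_comp hq (hf.comp Primrec.fst) Primrec.snd,
    fun a => hpq (f a)⟩

theorem RE.and {p q : α → Prop} (hp : RE p) (hq : RE q) : RE (fun a => p a ∧ q a) := by
  obtain ⟨r, hr, hpr⟩ := hp
  obtain ⟨s, hs, hqs⟩ := hq
  refine ⟨fun a m => r a m.unpair.1 ∧ s a m.unpair.2, ?_, ?_⟩
  · exact (primrecRel_comp hr Primrec.fst
        (Primrec.fst.comp (Primrec.unpair.comp Primrec.snd))).and
        (primrecRel_comp hs Primrec.fst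
        (Primrec.snd.comp (Primrec.unpair.comp Primrec.snd)))
  · intro a
    constructor
    · rintro ⟨h1, h2⟩
      obtain ⟨m, hm⟩ := (hpr a).1 h1
      obtain ⟨k, hk⟩ := (hqs a).1 h2
      exact ⟨Nat.pair m k, by simpa using ⟨hm, hk⟩⟩
    · rintro ⟨m, h1, h2⟩
      exact ⟨(hpr a).2 ⟨_, h1⟩, (hqs a).2 ⟨_, h2⟩⟩

theorem RE.or {p q : α → Prop} (hp : RE p) (hq : RE q) : RE (fun a => p a ∨ q a) := by
  obtain ⟨r, hr, hpr⟩ := hp
  obtain ⟨s, hs, hqs⟩ := hq
  refine ⟨fun a m => r a m ∨ s a m, ?_, ?_⟩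
  · exact (primrecRel_comp hr Primrec.fst Primrec.snd).or
      (primrecRel_comp hs Primrec.fst Primrec.snd)
  · intro a
    change (p a ∨ q a) ↔ ∃ m, r a m ∨ s a m
    rw [hpr, hqs, exists_or]

theorem RE.ex_nat {p : α × ℕ → Prop} (hp : RE p) : RE (fun a => ∃ n, p (a, n)) := by
  obtain ⟨q, hq, hpq⟩ := hp
  refine ⟨fun a m => q (a, m.unpair.1) m.unpair.2, ?_, ?_⟩
  · exact primrecRel_comp hq (Primrec.fst.pair (Primrec.fst.comp (Primrec.unpair.comp Primrec.snd)))
      (Primrec.snd.comp (Primrec.unpair.comp Primrec.snd))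
  · intro a
    constructor
    · rintro ⟨m, hm⟩
      obtain ⟨k, hk⟩ := (hpq _).1 hm
      exact ⟨Nat.pair m k, by simpa using hk⟩
    · rintro ⟨m, hm⟩
      exact ⟨m.unpair.1, (hpq _).2 ⟨_, hm⟩⟩

theorem RE.const (c : Prop) : RE (fun _ : α => c) := by
  by_cases h : c
  · refine ⟨fun _ _ => True, ?_, fun a => by simp [h]⟩
    exact (PrimrecPred.comp (p := fun _ : ℕ => True) (by
      exact ⟨inferInstance, (Primrec.const true).of_eq (by simp)⟩)
      (f := fun _ : α × ℕ => 0) (Primrec.const 0))
  · refine ⟨fun _ _ => False, ?_, fun a => by simp [h]⟩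
    exact (PrimrecPred.comp (p := fun _ : ℕ => False) (by
      exact ⟨inferInstance, (Primrec.const false).of_eq (by simp)⟩)
      (f := fun _ : α × ℕ => 0) (Primrec.const 0))

theorem RE.eq {f g : α → β} (hf : Primrec f) (hg : Primrec g) : RE (fun a => f a = g a) :=
  RE.prim (by
    have h : PrimrecRel (fun a b : β => a = b) := Primrec.eq
    exact primrecRel_comp h hf hg)

/-- existential quantifier over any `Primcodable` type -/
theorem RE.ex {p : α × γ → Prop} (hp : RE p) : RE (fun a => ∃ c, p (a, c)) := by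
  obtain ⟨q, hq, hpq⟩ := hp
  -- decode
  refine ⟨fun a m => ((decode (α := γ) m.unpair.1).elim false fun c =>
    @decide (q (a, c) m.unpair.2) (Classical.dec _)) = true, ?_, ?_⟩
  · obtain ⟨hd, hq'⟩ := hq
    have h0 : Primrec (fun x : (α × γ) × ℕ => @decide (q x.1 x.2) (Classical.dec _)) :=
      hq'.of_eq (fun x => by congr)
    have h1 : Primrec (fun x : α × ℕ => (decode (α := γ) x.2.unpair.1)) :=
      Primrec.decode.comp (Primrec.fst.comp (Primrec.unpair.comp Primrec.snd))
    have h2 : Primrec₂ (fun (x : α × ℕ) (c : γ) =>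
        @decide (q (x.1, c) x.2.unpair.2) (Classical.dec _)) := by
      exact h0.comp (((Primrec.fst.comp Primrec.fst).pair Primrec.snd).pair
        (Primrec.snd.comp (Primrec.unpair.comp (Primrec.snd.comp Primrec.fst))))
    have h3 : Primrec (fun x : α × ℕ => ((decode (α := γ) x.2.unpair.1).elim false fun c =>
        @decide (q (x.1, c) x.2.unpair.2) (Classical.dec _))) := by
      have := Primrec.option_casesOn h1 (Primrec.const false) h2
      refine this.of_eq ?_
      intro x
      cases (decode (α := γ) x.2.unpair.1) <;> rfl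
    exact Primrec.eq.comp h3 (Primrec.const true)
  · intro a
    constructor
    · rintro ⟨c, hc⟩
      obtain ⟨k, hk⟩ := (hpq _).1 hc
      exact ⟨Nat.pair (encode c) k, by simpa using hk⟩
    · rintro ⟨m, hm⟩
      cases h : (decode (α := γ) m.unpair.1) with
      | none => simp [h] at hm
      | some c =>
        simp only [h, Option.elim, decide_eq_true_eq] at hm
        exact ⟨c, (hpq _).2 ⟨_, hm⟩⟩

/-- bounded universal quantifier over a list -/
theorem RE.ball {p : α × γ → Prop} (hp : RE p) {g : α → List γ} (hg : Primrec g) :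
    RE (fun a => ∀ c ∈ g a, p (a, c)) := by
  obtain ⟨q, hq, hpq⟩ := hp
  refine ⟨fun a M => ∀ c ∈ g a, ∃ m < M, q (a, c) m, ?_, ?_⟩
  · have h1 : PrimrecRel (fun (m : ℕ) (x : α × γ) => q x m) :=
      primrecRel_comp hq Primrec.snd Primrec.fst
    have h2 : PrimrecRel (fun (M : ℕ) (x : α × γ) => ∃ m < M, q x m) :=
      (h1.exists_mem_list.comp (Primrec.list_range.comp Primrec.fst) Primrec.snd).of_eq (by simp)
    have h3 : PrimrecRel (fun (c : γ) (y : α × ℕ) => ∃ m < y.2, q (y.1, c) m) :=
      PrimrecPred.comp (p := fun z : ℕ × (α × γ) => ∃ m < z.1, q z.2 m) h2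
        (f := fun w : γ × (α × ℕ) => (w.2.2, (w.2.1, w.1)))
        ((Primrec.snd.comp Primrec.snd).pair ((Primrec.fst.comp Primrec.snd).pair Primrec.fst))
    have h4 : PrimrecRel (fun (L : List γ) (y : α × ℕ) =>
        ∀ c ∈ L, ∃ m < y.2, q (y.1, c) m) := h3.forall_mem_list
    exact PrimrecPred.comp (p := fun z : List γ × (α × ℕ) =>
        ∀ c ∈ z.1, ∃ m < z.2.2, q (z.2.1, c) m) h4
        (f := fun w : α × ℕ => (g w.1, (w.1, w.2)))
        ((hg.comp Primrec.fst).pair (Primrec.fst.pair Primrec.snd))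
  · intro a
    constructor
    · intro h
      have h' : ∀ c, ∃ m, c ∈ g a → q (a, c) m := by
        intro c
        by_cases hc : c ∈ g a
        · obtain ⟨m, hm⟩ := (hpq _).1 (h c hc)
          exact ⟨m, fun _ => hm⟩
        · exact ⟨0, fun h => absurd h hc⟩
      choose k hk using h'
      classical
      refine ⟨(g a).toFinset.sup k + 1, fun c hc => ⟨k c, ?_, hk c hc⟩⟩
      have := Finset.le_sup (f := k) (List.mem_toFinset.2 hc)
      omega
    · rintro ⟨M, hM⟩ c hc
      obtain ⟨m, _, hm⟩ := hM c hc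
      exact (hpq _).2 ⟨m, hm⟩

theorem RE.to_re {p : α → Prop} (hp : RE p) : REPred p := by
  classical
  obtain ⟨q, hq', hpq⟩ := hp
  have hq : Primrec (fun x : α × ℕ => decide (q x.1 x.2)) := by
    obtain ⟨_, hq⟩ := hq'
    exact hq.of_eq (fun x => by congr)
  have h1 : Partrec (fun n : α => Nat.rfind (fun m => (Part.some (decide (q n m)) : Part Bool))) := by
    apply Partrec.rfind
    have := hq.to_comp.partrec
    exact this
  have h2 := h1.dom_re
  refine h2.of_eq ?_
  intro n
  rw [hpq n]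
  constructor
  · intro h
    obtain ⟨m, hm⟩ := Part.dom_iff_mem.1 h
    have := Nat.rfind_spec hm
    exact ⟨m, by simpa using this⟩
  · rintro ⟨m, hm⟩
    refine Nat.rfind_dom.2 ⟨m, ?_, ?_⟩
    · simp [hm]
    · intro k _
      trivial

theorem RE.of_re {p : α → Prop} (hp : REPred p) : RE p := by
  have h0 : Nat.Partrec fun n => Part.bind (decode (α := α) n) fun a =>
      Part.map encode (Part.assert (p a) fun _ => Part.some ()) := hp
  obtain ⟨c, hc⟩ := Nat.Partrec.Code.exists_code.1 h0
  refine ⟨fun a m => (Nat.Partrec.Code.evaln m c (encode a)).isSome = true, ?_, ?_⟩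
  · have h1 : Primrec (fun x : α × ℕ =>
        (Nat.Partrec.Code.evaln x.2 c (encode x.1)).isSome) := by
      refine Primrec.option_isSome.comp ?_
      exact Nat.Partrec.Code.primrec_evaln.comp
        ((Primrec.snd.pair (Primrec.const c)).pair (Primrec.encode.comp Primrec.fst))
    exact Primrec.eq.comp h1 (Primrec.const true)
  · intro a
    have h2 : (c.eval (encode a)).Dom ↔ p a := by
      rw [hc]
      simp [Part.dom_iff_mem]
    rw [← h2]
    constructor
    · intro hd
      obtain ⟨x, hx⟩ := Part.dom_iff_mem.1 hd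
      obtain ⟨m, hm⟩ := Nat.Partrec.Code.evaln_complete.1 hx
      exact ⟨m, Option.isSome_iff_exists.2 ⟨x, hm⟩⟩
    · rintro ⟨m, hm⟩
      obtain ⟨x, hx⟩ := Option.isSome_iff_exists.1 hm
      exact Part.dom_iff_mem.2 ⟨x, Nat.Partrec.Code.evaln_complete.2 ⟨m, hx⟩⟩

theorem RE_iff_re {p : α → Prop} : RE p ↔ REPred p := ⟨RE.to_re, RE.of_re⟩

/-- preimage under a computable function -/
theorem RE.comp {p : β → Prop} (hp : RE p) {f : α → β} (hf : Computable f) :
    RE (fun a => p (f a)) := by
  apply RE.of_re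
  have h := hp.to_re
  exact Partrec.comp (f := fun b : β => Part.assert (p b) fun _ => Part.some ()) h hf

theorem RE.computable {p : α → Prop} (hp : ComputablePred p) : RE p := RE.of_re hp.to_re

/-- there are only countably many Σ₁ predicates -/
theorem countable_RE (α : Type) [Primcodable α] : {p : α → Prop | RE p}.Countable := by
  classical
  have hsub : {p : α → Prop | RE p} ⊆ Set.range (fun c : Nat.Partrec.Code => fun a : α =>
      (c.eval (encode a)).Dom) := by
    rintro p hp
    have h0 : Nat.Partrec fun n => Part.bind (decode (α := α) n) fun a =>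
        Part.map encode (Part.assert (p a) fun _ => Part.some ()) := RE.to_re hp
    obtain ⟨c, hc⟩ := Nat.Partrec.Code.exists_code.1 h0
    refine ⟨c, ?_⟩
    funext a
    apply propext
    simp only
    rw [hc]
    simp [Part.dom_iff_mem]
  exact (Set.countable_range _).mono hsub

end

end ME
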